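import Pool.Agent.Lib.MP_606be1_nt.TH.CxTower

/-! Complex bases: the threshold is sharp along every arc of a logarithmic spiral. -/

namespace Pool.Agent.Lib.MP_606be1_nt.TH

open Real Set Filter Asymptotics

lemma eta_ex {B : ℂ} (hb : 0 < B.re) {δ : ℝ} (h0 : 0 < δ) (h1 : δ ≤ 1) :
    ∃ η : ℝ, 0 < η ∧ ∀ w : ℂ, ‖w‖ = 1 → δ ≤ ‖w - 1‖ → ∀ y : ℝ,
      η ≤ ‖w - Complex.exp (y * B)‖ := by
  have B0 : 0 < ‖B‖ := hb.trans_le (Complex.re_le_norm B)
  set r := δ / (4 * ‖B‖) with hr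
  have r0 : 0 < r := by positivity
  have r1 : r * ‖B‖ = δ / 4 := by rw [hr]; field_simp
  have r2 : exp (-(r * B.re)) < 1 := exp_lt_one_iff.2 (by nlinarith)
  refine ⟨min (δ / 2) (min (r * B.re) (1 - exp (-(r * B.re)))),
    lt_min (by positivity) (lt_min (by positivity) (by linarith)), fun w w1 w2 y => ?_⟩
  have e1 := abs_le.1 (abs_norm_sub_norm_le w (Complex.exp (y * B)))
  rw [w1, Complex.norm_exp, Complex.re_ofReal_mul] at e1
  rcases le_total |y| r with hy | hy
  · refine (min_le_left _ _).trans ?_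
    have e2 : ‖(y : ℂ) * B‖ ≤ δ / 4 := by
      rw [norm_mul, Complex.norm_real, Real.norm_eq_abs, ← r1]; gcongr
    have e3 := Complex.norm_exp_sub_one_le (x := y * B) (by linarith)
    have e4 := norm_sub_le_norm_sub_add_norm_sub w (Complex.exp (y * B)) 1
    linarith
  · refine (min_le_right _ _).trans ?_
    rcases le_abs'.1 hy with h | h
    · refine (min_le_right _ _).trans ?_
      have : exp (y * B.re) ≤ exp (-(r * B.re)) := exp_le_exp.2 (by nlinarith)
      linarith [e1.2]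
    · refine (min_le_left _ _).trans ?_
      have := add_one_le_exp (y * B.re)
      nlinarith [e1.1]

lemma irr_of_bound {α β : ℝ} (hα : 1 < α) (hβ : 1 < β) {ψ : ℕ → ℝ}
    (H : ∀ᶠ n : ℕ in atTop, ∀ m : ℕ, exp (ψ n) ≤ |α ^ n - β ^ m|) :
    Irrational (log α / log β) := by
  by_contra hi
  obtain ⟨K, hK⟩ := eventually_atTop.1 H
  have hinf := T_infinite_of_rat hα hβ hi le_rfl
  have hinj : InjOn Prod.fst (T α β 0) := by
    rintro ⟨n, m⟩ h1 ⟨n', m'⟩ h2 h
    have h1 : |α ^ n - β ^ m| ≤ 0 := h1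
    have h2 : |α ^ n' - β ^ m'| ≤ 0 := h2
    obtain rfl : n = n' := h
    rw [abs_nonpos_iff, sub_eq_zero] at h1 h2
    rw [pow_right_injective₀ (by linarith) hβ.ne' (h1.symm.trans h2)]
  obtain ⟨_, ⟨p, hp, rfl⟩, hn⟩ := (hinf.image hinj).exists_gt K
  have h1 := hK p.1 hn.le p.2
  have h2 : |α ^ p.1 - β ^ p.2| ≤ 0 := hp
  linarith [exp_pos (ψ p.1)]

lemma transfer {α β : ℂ} (hα : 1 < ‖α‖) (hβ : 1 < ‖β‖) {a b L : ℝ} (ha : 1 < a) (hb : 1 < b)
    (hi : Irrational (log a / log b)) (hL : 0 < L) {d : ℕ} (hd : 1 ≤ d)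
    (hm : ∀ y j, j ∈ J a b y → (d * q a b j, pp a b j) ∈ Tc α β (y * L))
    (h : IsEquivalent atTop (fun x : ℝ => ((Tc α β x).ncard : ℝ))
      (fun x => log x ^ 2 / (log ‖α‖ * log ‖β‖))) :
    IsEquivalent atTop (fun x : ℝ => ((T a b x).ncard : ℝ))
      (fun x => log x ^ 2 / (log a * log b)) := by
  classical
  have la := log_pos hα
  have lb := log_pos hβ
  have hT : ∀ x, (Tc α β x).Finite := fun x => by
    have h1 : ∀ᶠ y : ℝ in atTop, 0 < log y ^ 2 / (log ‖α‖ * log ‖β‖) := by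
      filter_upwards [eventually_gt_atTop 1] with y hy
      have := log_pos hy
      positivity
    obtain ⟨y, hy1, hy2⟩ := ((h.eventually_pos h1).and (eventually_ge_atTop x)).exists
    refine (finite_of_ncard_pos (s := Tc α β y) ?_).subset fun p hp => le_trans hp hy2
    exact_mod_cast hy1
  set f : ℕ → ℕ × ℕ := fun j => (d * q a b j, pp a b j) with hf
  have finj : InjOn f (Ici 1) := fun i hi' j hj hij =>
    q_injOn hi hi' hj (Nat.eq_of_mul_eq_mul_left hd (congrArg Prod.fst hij))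
  have hJ : ∀ x, (J a b x).Finite := fun x => by
    have : (J a b x ∩ Ici 1).Finite := by
      refine Finite.of_finite_image (f := f) ((hT (x * L)).subset ?_)
        (finj.mono inter_subset_right)
      rintro _ ⟨j, hj, rfl⟩
      exact hm x j hj.1
    refine (this.union (finite_singleton 0)).subset fun j hj => ?_
    rcases Nat.eq_zero_or_pos j with h | h
    · right; exact h
    · left; exact ⟨hj, h⟩
  rw [criterion ha hb]
  refine ⟨hJ, ?_⟩
  have hO : (fun x : ℝ => log x ^ 2 / (log ‖α‖ * log ‖β‖)) =O[atTop] fun x => log x ^ 2 := by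
    simpa [div_eq_inv_mul] using
      (isBigO_refl (fun x : ℝ => log x ^ 2) atTop).const_mul_left (log ‖α‖ * log ‖β‖)⁻¹
  have h1 := (h.isLittleO.trans_isBigO hO).add
    (lin_isLittleO (1 / log ‖α‖ + 2 * log 2 / (log ‖α‖ * log ‖β‖)) 1)
  have h2 : (fun x => ((J a b (x / L)).ncard : ℝ)) =o[atTop] fun x => log x ^ 2 := by
    refine IsBigO.trans_isLittleO (IsBigO.of_bound 1 ?_) h1
    filter_upwards [eventually_ge_atTop 2] with x hx
    have e0 : 2 * (x / 2) = x := by ring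
    have l2 : 0 < log 2 := log_pos (by norm_num)
    set N := ⌊log (x / 2) / log ‖α‖⌋₊ + 1 with hN
    set S := (hJ (x / L)).toFinset \ Finset.range N with hS
    have hS' : ∀ j ∈ S, j ∈ J a b (x / L) ∧ N ≤ j := fun j hj =>
      ⟨by simpa using (Finset.mem_sdiff.1 hj).1, by simpa using (Finset.mem_sdiff.1 hj).2⟩
    have hl := lowerC hα hβ (y := x / 2) (by linarith) (hT _) (S.image f) fun p hp => by
      obtain ⟨j, hj, rfl⟩ := Finset.mem_image.1 hp
      have e1 := hm _ j (hS' j hj).1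
      rw [div_mul_cancel₀ _ hL.ne'] at e1
      have e2 := le_q hi j
      have e3 : q a b j ≤ d * q a b j := Nat.le_mul_of_pos_left _ hd
      exact ⟨by rwa [e0], by have := (hS' j hj).2; simp only [hf]; omega⟩
    rw [Finset.card_image_of_injOn (finj.mono fun j hj => by
      have := (hS' j hj).2
      exact (by omega : 1 ≤ j)), e0] at hl
    have h3 : (hJ (x / L)).toFinset.card ≤ S.card + N := by
      have := Finset.le_card_sdiff (Finset.range N) (hJ (x / L)).toFinset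
      rw [Finset.card_range, ← hS] at this
      omega
    rw [← ncard_eq_toFinset_card _ (hJ _)] at h3
    have h4 : ((J a b (x / L)).ncard : ℝ) ≤ S.card + N := by exact_mod_cast h3
    have h5 : (N : ℝ) ≤ log (x / 2) / log ‖α‖ + 1 := by
      rw [hN]; push_cast
      linarith [Nat.floor_le (div_nonneg (log_nonneg (by linarith : 1 ≤ x / 2)) la.le)]
    rw [log_div (by linarith) two_ne_zero] at hl h5
    have e1 : (log x - log 2) ^ 2 / (log ‖α‖ * log ‖β‖) = log x ^ 2 / (log ‖α‖ * log ‖β‖)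
      - 2 * log 2 / (log ‖α‖ * log ‖β‖) * log x + log 2 ^ 2 / (log ‖α‖ * log ‖β‖) := by ring
    have e2 : (log x - log 2) / log ‖α‖ = 1 / log ‖α‖ * log x - log 2 / log ‖α‖ := by ring
    have e3 : 0 ≤ log 2 ^ 2 / (log ‖α‖ * log ‖β‖) := by positivity
    have e4 : 0 ≤ log 2 / log ‖α‖ := by positivity
    rw [Real.norm_natCast, one_mul, Real.norm_eq_abs]
    refine le_trans ?_ (le_abs_self _)
    simp only [Pi.sub_apply]
    linarith
  refine (scale_isLittleO h2 hL).congr_left fun x => ?_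
  rw [mul_div_cancel_left₀ _ hL.ne']

lemma mul_tw (k i : ℕ) : (i + 1) * tw k ≤ tw (k + i) := by
  induction i with
  | zero => simp
  | succ i ih =>
    have h : ∀ t : ℕ, 2 * t ≤ 2 ^ t := fun t => by
      cases t with
      | zero => simp
      | succ s => rw [pow_succ']; exact Nat.mul_le_mul_left 2 Nat.lt_two_pow_self
    have h1 : 2 * tw (k + i) ≤ tw (k + (i + 1)) := h _
    nlinarith [Nat.zero_le (tw k), Nat.zero_le (i * tw k)]

theorem thresholdC {β B ζ : ℂ} (hβ : 1 < ‖β‖) (hB : Complex.exp B = β) (hζ : IsOfFinOrder ζ)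
    {s t : ℝ} (hst : s < t) {S : Set ℂ} (hS : ∀ α ∈ S, 1 < ‖α‖)
    (harc : ∀ ξ : ℝ, s < ξ → ξ < t → ζ * Complex.exp (ξ * B) ∈ S) {ψ : ℕ → ℝ}
    (hψ : Monotone ψ) (ho : Tendsto (fun n : ℕ => ψ n / n) atTop (nhds 0)) :
    (∀ α ∈ S, (∀ᶠ n : ℕ in atTop, ∀ m : ℕ, exp (ψ n) ≤ ‖α ^ n - β ^ m‖) →
      IsEquivalent atTop (fun x : ℝ => ((Tc α β x).ncard : ℝ))
        (fun x => log x ^ 2 / (log ‖α‖ * log ‖β‖))) ↔
    Tendsto (fun k : ℕ => ψ (tw k) / √k) atTop atTop := by
  constructor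
  swap
  · intro H α h1 h3
    refine towerC (hS α h1) hβ fun C => ?_
    obtain ⟨K, hK⟩ := eventually_atTop.1 h3
    obtain ⟨K', hK'⟩ := eventually_atTop.1 (H.eventually_ge_atTop C)
    refine ⟨K + K' + 1, fun k hk n m hn => ?_⟩
    have k0 : 0 < √(k : ℝ) := sqrt_pos.2 (by exact_mod_cast (by omega : 0 < k))
    have h4 := (le_div_iff₀ k0).1 (hK' k (by omega))
    exact (exp_le_exp.2 (h4.trans (hψ hn))).trans (hK n (by have := le_tw k; omega) m)
  intro H
  set d := orderOf ζ with hd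
  have d0 : 0 < d := hζ.orderOf_pos
  have d1 : (0 : ℝ) < d := by exact_mod_cast d0
  have z1 : ζ ^ d = 1 := pow_orderOf_eq_one ζ
  have z2 : ‖ζ‖ = 1 := by
    have := congrArg norm z1
    rwa [norm_pow, norm_one, pow_eq_one_iff_of_nonneg (norm_nonneg _) d0.ne'] at this
  have b1 : log ‖β‖ = B.re := by rw [← hB, Complex.norm_exp, log_exp]
  have b0 : 0 < B.re := b1 ▸ log_pos hβ
  have n1 : ∀ ξ : ℝ, ‖ζ * Complex.exp (ξ * B)‖ = exp (ξ * B.re) := fun ξ => by
    rw [norm_mul, z2, one_mul, Complex.norm_exp, Complex.re_ofReal_mul]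
  have m0 : 0 < (s + t) / 2 * B.re := by
    have := hS _ (harc ((s + t) / 2) (by linarith) (by linarith))
    rwa [n1, one_lt_exp_iff] at this
  obtain ⟨δ, δ0, δ1, hδ⟩ := fin_pos (Finset.Ico 1 d) (fun i => ‖ζ ^ i - 1‖) fun i hi => by
    obtain ⟨i1, i2⟩ := Finset.mem_Ico.1 hi
    rw [norm_pos_iff, sub_ne_zero]
    exact pow_ne_one_of_lt_orderOf (by omega) i2
  obtain ⟨η, η0, hη⟩ := eta_ex b0 δ0 δ1
  have u1 : 1 < exp (d * ((s + t) / 2 * B.re)) := one_lt_exp_iff.2 (by positivity)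
  have key := (threshold hβ u1.le (v := exp (d * (t * B.re))) (by gcongr; linarith)
    (ψ := fun n => ψ (d * n)) (fun i j h => hψ (by gcongr)) (by
      have h1 := (ho.comp (tendsto_id.const_mul_atTop' d0)).const_mul (d : ℝ)
      rw [mul_zero] at h1
      refine h1.congr fun n => ?_
      simp only [Function.comp, id]
      push_cast
      rw [← mul_div_assoc, mul_div_mul_left _ _ d1.ne'])).1 fun a a1 a2 a3 => by
    have ha := u1.trans a1
    have hi := irr_of_bound ha hβ a3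
    set ξ := log a / (d * B.re) with hξ
    have x1 : log a = d * (ξ * B.re) := by rw [hξ]; field_simp
    clear_value ξ
    rw [← lt_log_iff_exp_lt (by linarith), x1] at a1
    rw [← log_lt_iff_lt_exp (by linarith), x1] at a2
    have x2 : (s + t) / 2 < ξ := lt_of_mul_lt_mul_right (lt_of_mul_lt_mul_left a1 d1.le) b0.le
    have x3 : ξ < t := lt_of_mul_lt_mul_right (lt_of_mul_lt_mul_left a2 d1.le) b0.le
    have hα := harc ξ (by linarith) x3
    have n2 := n1 ξ
    have n3 : ∀ n m : ℕ, ‖(ζ * Complex.exp (ξ * B)) ^ n - β ^ m‖ =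
        ‖ζ * Complex.exp (ξ * B)‖ ^ n * ‖ζ ^ n - Complex.exp ((m - n * ξ : ℝ) * B)‖ := fun n m => by
      rw [norm_mul, z2, one_mul, ← norm_pow, ← norm_mul, ← hB, mul_pow, ← Complex.exp_nat_mul,
        ← Complex.exp_nat_mul, mul_sub, ← Complex.exp_add, mul_comm]
      congr 3
      push_cast
      ring
    set α := ζ * Complex.exp (ξ * B) with hα'
    have hα1 := hS α hα
    have n4 : ‖α‖ ^ d = a := by
      rw [n2, ← exp_nat_mul, ← x1, exp_log (by linarith)]
    refine transfer hα1 hβ ha hβ hi (L := ‖B‖ * exp ‖B‖)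
      (mul_pos (b0.trans_le (Complex.re_le_norm B)) (exp_pos _)) d0 (fun y j hj => ?_) (H α hα ?_)
    · have h2 : a ^ q a ‖β‖ j ≤ y * q a ‖β‖ (j + 1) := hj
      have e1 : |(pp a ‖β‖ j : ℝ) - (d * q a ‖β‖ j : ℕ) * ξ| = E (log a / log ‖β‖) j := by
        rw [← abs_err hi, ← q_cast' hi, ← pp_cast' ha hβ hi, abs_sub_comm, x1, b1]
        congr 2
        push_cast
        field_simp
      have e2 := E_le hi j
      have e3 := E_pos j _ hi
      rw [← q_cast' hi] at e2
      have e4 : (1 : ℝ) ≤ q a ‖β‖ (j + 1) := by exact_mod_cast Rat.den_pos _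
      change ‖α ^ _ - β ^ _‖ ≤ _
      rw [n3, pow_mul ζ, z1, one_pow, pow_mul, n4, norm_sub_rev]
      have e5 := Complex.norm_exp_sub_sum_le_norm_mul_exp
        (((pp a ‖β‖ j : ℝ) - (d * q a ‖β‖ j : ℕ) * ξ : ℝ) * B) 1
      rw [Finset.sum_range_one, pow_zero, Nat.factorial_zero, Nat.cast_one, div_one, pow_one,
        norm_mul, Complex.norm_real, Real.norm_eq_abs, e1] at e5
      generalize E (log a / log ‖β‖) j = ε at *
      have e6 : ε ≤ 1 := by nlinarith
      have e7 : ε * ‖B‖ * exp (ε * ‖B‖) ≤ ε * ‖B‖ * exp ‖B‖ := by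
        gcongr; exact mul_le_of_le_one_left (norm_nonneg _) e6
      have y0 : 0 ≤ y := by
        by_contra! hy
        nlinarith [pow_pos (by linarith : 0 < a) (q a ‖β‖ j)]
      calc _ ≤ y * q a ‖β‖ (j + 1) * (ε * ‖B‖ * exp ‖B‖) := by gcongr; exact e5.trans e7
        _ = y * (‖B‖ * exp ‖B‖) * (q a ‖β‖ (j + 1) * ε) := by ring
        _ ≤ _ := mul_le_of_le_one_right (by positivity) e2
    · obtain ⟨K, hK⟩ := eventually_atTop.1 a3
      have la := log_pos hα1
      filter_upwards [eventually_ge_atTop (d * K), eventually_gt_atTop 0,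
        ho.eventually (gt_mem_nhds (half_pos la)),
        (tendsto_natCast_atTop_atTop (R := ℝ)).eventually_ge_atTop (-log η / (log ‖α‖ / 2))]
        with n h1 h2 h3 h4 m
      by_cases hn : d ∣ n
      · obtain ⟨k, rfl⟩ := hn
        refine (hK k (Nat.le_of_mul_le_mul_left h1 d0) m).trans ?_
        have := abs_norm_sub_norm_le (α ^ (d * k)) (β ^ m)
        rwa [norm_pow, norm_pow, pow_mul, n4] at this
      · have e1 := hη (ζ ^ n) (by rw [norm_pow, z2, one_pow]) (by
          rw [← pow_mod_orderOf]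
          exact hδ _ (Finset.mem_Ico.2 ⟨Nat.pos_of_ne_zero fun e => hn (Nat.dvd_of_mod_eq_zero e),
            Nat.mod_lt _ d0⟩)) (m - n * ξ)
        rw [div_lt_iff₀ (by exact_mod_cast h2)] at h3
        rw [div_le_iff₀ (half_pos la)] at h4
        rw [n3, pow_eq_exp hα1]
        calc _ ≤ exp (n * log ‖α‖ + log η) := exp_le_exp.2 (by linarith)
          _ = exp (n * log ‖α‖) * η := by rw [exp_add, exp_log η0]
          _ ≤ _ := by gcongr
  rw [← tendsto_add_atTop_iff_nat d]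
  refine tendsto_atTop.2 fun C => ?_
  filter_upwards [key.eventually_ge_atTop (2 * |C|), eventually_ge_atTop d] with k h1 h2
  have k0 : (0 : ℝ) < k := by exact_mod_cast (by omega : 0 < k)
  have k1 : (d : ℝ) ≤ k := by exact_mod_cast h2
  rw [le_div_iff₀ (sqrt_pos.2 k0)] at h1
  rw [le_div_iff₀ (sqrt_pos.2 (by positivity))]
  have e1 : √((k + d : ℕ) : ℝ) ≤ 2 * √k := by
    rw [sqrt_le_left (by positivity), mul_pow, sq_sqrt k0.le]
    push_cast
    linarith
  have e2 := mul_tw k d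
  have e3 : ψ (d * tw k) ≤ ψ (tw (k + d)) := hψ (by nlinarith [Nat.zero_le (tw k)])
  have e4 : C * √((k + d : ℕ) : ℝ) ≤ |C| * (2 * √k) :=
    mul_le_mul (le_abs_self C) e1 (sqrt_nonneg _) (abs_nonneg C)
  linarith

end Pool.Agent.Lib.MP_606be1_nt.TH
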