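import Pool.Agent.Lib.MP_606be1_nt.TH.CxUp

/-! Complex bases: the asymptotic formula under a tower type lower bound. -/

namespace Pool.Agent.Lib.MP_606be1_nt.TH

open Real Set Filter Asymptotics

variable {α β : ℂ} (hα : 1 < ‖α‖) (hβ : 1 < ‖β‖)
include hα hβ

lemma Ac_small
    (H : ∀ C : ℝ, ∃ K : ℕ, ∀ k ≥ K, ∀ n m : ℕ, tw k ≤ n → exp (C * √k) ≤ ‖α ^ n - β ^ m‖) :
    (∀ x, 1 ≤ x → (Ac α β x).Finite) ∧
      (fun x => ((Ac α β x).ncard : ℝ)) =o[atTop] fun x => log x ^ 2 := by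
  have ha := log_pos hα
  have hb := log_pos hβ
  obtain ⟨δ, d0, d1, hδ⟩ : ∃ δ : ℝ, 0 < δ ∧ δ ≤ 1 ∧ ∀ n m : ℕ, 1 ≤ n → δ ≤ ‖α ^ n - β ^ m‖ := by
    obtain ⟨K, hK⟩ := H 0
    exact exists_delta hα hβ (K := tw K) fun n hn m => by simpa using hK K le_rfl n m hn
  set μ := min (log ‖β‖) 1 with hμ
  have m0 : 0 < μ := lt_min hb one_pos
  have m1 : μ ≤ 1 := min_le_right _ _
  set W := 8 / (δ * μ) with hW
  have W0 : W * (δ * μ) = 8 := by rw [hW]; field_simp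
  have Wp : 0 < W := by positivity
  have W1 : 8 ≤ W * δ := by nlinarith [mul_pos Wp d0]
  have W2 : 8 ≤ W * μ := by nlinarith [mul_pos Wp m0]
  have W3 : 1 ≤ W := by nlinarith
  clear_value W
  have key : ∀ C : ℝ, 0 < C → ∃ K : ℕ, ∀ x, 1 ≤ x → ∀ k ≥ K, log x ^ 2 / C ^ 2 < k →
      ∀ n ∈ Ac α β x, n < tw k := by
    intro C hC
    obtain ⟨K, hK⟩ := H C
    refine ⟨K, fun x hx k hk hk' n hn => ?_⟩
    by_contra hh
    obtain ⟨-, m, hm⟩ := hn
    have h1 := hK k hk n m (not_lt.1 hh)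
    have h2 : ‖α ^ n - β ^ m‖ ≤ x := hm
    have h3 : C * √k ≤ log x := by
      rw [le_log_iff_exp_le (by positivity)]; linarith
    have h4 : (C * √k) ^ 2 ≤ log x ^ 2 := by gcongr
    rw [mul_pow, sq_sqrt (Nat.cast_nonneg k)] at h4
    rw [div_lt_iff₀ (by positivity)] at hk'
    linarith
  have hfin : ∀ x, 1 ≤ x → (Ac α β x).Finite := by
    intro x hx
    obtain ⟨K, hK⟩ := key 1 one_pos
    obtain ⟨k, hk⟩ := exists_nat_gt (max (K : ℝ) (log x ^ 2 / 1 ^ 2))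
    have hk1 : K ≤ k := by exact_mod_cast ((le_max_left _ _).trans hk.le)
    exact (finite_lt_nat (tw k)).subset (hK x hx k hk1 ((le_max_right _ _).trans_lt hk))
  refine ⟨hfin, isLittleO_iff.2 fun ε hε => ?_⟩
  obtain ⟨C, hC, hCε⟩ : ∃ C : ℝ, 0 < C ∧ 2 / C ^ 2 ≤ ε / 2 := by
    refine ⟨√(4 / ε), by positivity, ?_⟩
    rw [sq_sqrt (by positivity)]
    apply le_of_eq
    field_simp
    norm_num
  obtain ⟨K, hK⟩ := key C hC
  have hlin := isLittleO_iff.1 (lin_isLittleO (2 / log ‖α‖)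
    (2 / log ‖α‖ * log W + 16 / log ‖α‖ ^ 3 + 2 + 2 * K + 2)) (half_pos hε)
  filter_upwards [hlin, eventually_ge_atTop 1] with x h1 hx
  classical
  have hL := log_nonneg hx
  have hLW := log_nonneg W3
  set k := max K (⌊log x ^ 2 / C ^ 2⌋₊ + 1) with hk
  set N := ⌈2 / log ‖α‖ * (log x + log W) + 16 / log ‖α‖ ^ 3 + 1⌉₊ with hN
  set S := (hfin x hx).toFinset \ Finset.range N with hS
  have hk2 : log x ^ 2 / C ^ 2 < k := by
    have : ((⌊log x ^ 2 / C ^ 2⌋₊ + 1 : ℕ) : ℝ) ≤ k := by exact_mod_cast le_max_right _ _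
    push_cast at this
    exact (Nat.lt_floor_add_one _).trans_le this
  have hSm : ∀ j ∈ S, j ∈ Ac α β x ∧
      2 / log ‖α‖ * (log x + log W) + 16 / log ‖α‖ ^ 3 + 1 ≤ j := fun j hj => by
    obtain ⟨e1, e2⟩ := Finset.mem_sdiff.1 hj
    have e3 : N ≤ j := by simpa using e2
    exact ⟨by simpa using e1, Nat.ceil_le.1 e3⟩
  have p1 : 0 ≤ 2 / log ‖α‖ * (log x + log W) := by positivity
  have p2 : 0 ≤ 16 / log ‖α‖ ^ 3 := by positivity
  have h2 : S.card ≤ 2 * k := by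
    by_contra hh
    obtain ⟨j, hj, hj'⟩ := chain' ha k S (fun j hj => by
      have := (hSm j hj).2
      exact ⟨by exact_mod_cast (by linarith : (1 : ℝ) ≤ j), by linarith⟩) (fun j hj i hi hji => by
      obtain ⟨⟨e1, m, e2⟩, e3⟩ := hSm j hj
      obtain ⟨⟨-, m', e4⟩, -⟩ := hSm i hi
      set s := exp (log ‖α‖ * j / 2) with hs
      have s0 : 0 < s := exp_pos _
      have s1 : ‖α‖ ^ j = s * s := by rw [pow_eq_exp hα, hs, ← exp_add]; ring_nf
      have s2 : x * W ≤ s := by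
        rw [← exp_log (by positivity : 0 < x * W), log_mul (by linarith) Wp.ne']
        refine exp_le_exp.2 ?_
        have e5 : 2 / log ‖α‖ * (log x + log W) ≤ j := by linarith
        rw [div_mul_eq_mul_div, div_le_iff₀ ha] at e5
        linarith
      have s3 : 8 * x ≤ δ * s := by nlinarith
      have s4 : 8 * x ≤ μ * s := by nlinarith
      have s5 : 1 ≤ s := by nlinarith
      have e6 := gap hα hβ hδ e2 e4 hji e1 (by rw [s1]; nlinarith)
      rw [s1, ← hμ] at e6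
      have e7 : (0 : ℝ) ≤ i := Nat.cast_nonneg i
      refine le_of_mul_le_mul_left (a := 4 * x) ?_ (by linarith)
      nlinarith) (not_le.1 hh)
    exact absurd (hK x hx k (le_max_left _ _) hk2 j (hSm j hj).1) (not_lt.2 hj')
  have h3 : (hfin x hx).toFinset.card ≤ S.card + N := by
    have := Finset.le_card_sdiff (Finset.range N) (hfin x hx).toFinset
    rw [Finset.card_range, ← hS] at this
    omega
  rw [← ncard_eq_toFinset_card _ (hfin x hx)] at h3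
  have h4 : ((Ac α β x).ncard : ℝ) ≤ 2 * k + N := by exact_mod_cast (by omega)
  have h5 : (N : ℝ) ≤ 2 / log ‖α‖ * (log x + log W) + 16 / log ‖α‖ ^ 3 + 1 + 1 :=
    (Nat.ceil_lt_add_one (by positivity)).le
  have h6 : (k : ℝ) ≤ K + log x ^ 2 / C ^ 2 + 1 := by
    have e1 : k ≤ K + (⌊log x ^ 2 / C ^ 2⌋₊ + 1) := by omega
    have e2 : (k : ℝ) ≤ K + (⌊log x ^ 2 / C ^ 2⌋₊ + 1) := by exact_mod_cast e1
    linarith [Nat.floor_le (show 0 ≤ log x ^ 2 / C ^ 2 by positivity)]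
  have h8 : 2 / C ^ 2 * log x ^ 2 ≤ ε / 2 * log x ^ 2 := by gcongr
  rw [Real.norm_eq_abs, Real.norm_eq_abs, abs_of_nonneg (sq_nonneg (log x))] at h1
  rw [Real.norm_natCast, Real.norm_eq_abs, abs_of_nonneg (sq_nonneg _)]
  have h9 := le_abs_self (2 / log ‖α‖ * log x +
    (2 / log ‖α‖ * log W + 16 / log ‖α‖ ^ 3 + 2 + 2 * K + 2))
  have e2 : 2 / C ^ 2 * log x ^ 2 = 2 * (log x ^ 2 / C ^ 2) := by ring
  linarith

theorem towerC
    (H : ∀ C : ℝ, ∃ K : ℕ, ∀ k ≥ K, ∀ n m : ℕ, tw k ≤ n → exp (C * √k) ≤ ‖α ^ n - β ^ m‖) :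
    IsEquivalent atTop (fun x : ℝ => ((Tc α β x).ncard : ℝ))
      (fun x => log x ^ 2 / (log ‖α‖ * log ‖β‖)) := by
  have ha := log_pos hα
  have hb := log_pos hβ
  obtain ⟨hA, hA'⟩ := Ac_small hα hβ H
  have hO' : (fun x : ℝ => log x ^ 2) =O[atTop] fun x => log x ^ 2 / (log ‖α‖ * log ‖β‖) := by
    simpa [div_eq_inv_mul] using
      (isBigO_refl (fun x : ℝ => log x ^ 2) atTop).const_mul_right
        (c := (log ‖α‖ * log ‖β‖)⁻¹) (by positivity)
  refine IsLittleO.trans_isBigO ?_ hO'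
  set A : ℝ := (log 2 / log ‖α‖ + 1) / log ‖β‖ + (log 3 / log ‖β‖ + 1) / log ‖α‖ with hA1
  set B : ℝ := (log 2 / log ‖α‖ + 1) * (log 3 / log ‖β‖ + 1) with hB
  have h1 := ((hA'.const_mul_left (2 / log ‖β‖ + 1)).add (lin_isLittleO A B)).add
    (lin_isLittleO (2 * log 2 / (log ‖α‖ * log ‖β‖)) 0)
  refine IsBigO.trans_isLittleO (IsBigO.of_bound 1 ?_) h1
  filter_upwards [eventually_ge_atTop 2] with x hx
  obtain ⟨hT, hu⟩ := upperC hα hβ (by linarith) (hA x (by linarith))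
  have e0 : 2 * (x / 2) = x := by ring
  have hl := lowerC hα hβ (y := x / 2) (by linarith) (by rwa [e0]) ∅ (by simp)
  rw [e0, log_div (by linarith) two_ne_zero, Finset.card_empty, Nat.cast_zero, add_zero] at hl
  have hL := log_nonneg (by linarith : 1 ≤ x)
  rw [log_mul (by norm_num) (by linarith), log_mul (by norm_num) (by linarith)] at hu
  have e1 : ((log 2 + log x) / log ‖α‖ + 1) * ((log 3 + log x) / log ‖β‖ + 1)
      = log x ^ 2 / (log ‖α‖ * log ‖β‖) + (A * log x + B) := by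
    rw [hA1, hB]; field_simp; ring
  have e1' : (log x - log 2) ^ 2 / (log ‖α‖ * log ‖β‖) = log x ^ 2 / (log ‖α‖ * log ‖β‖)
      - 2 * log 2 / (log ‖α‖ * log ‖β‖) * log x + log 2 ^ 2 / (log ‖α‖ * log ‖β‖) := by ring
  rw [e1] at hu
  rw [e1'] at hl
  have l2 : 0 < log 2 := log_pos (by norm_num)
  have l3 : 0 < log 3 := log_pos (by norm_num)
  have e2 : 0 ≤ A * log x + B := by positivity
  have e3 : 0 ≤ 2 * log 2 / (log ‖α‖ * log ‖β‖) * log x := by positivity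
  have e4 : (0 : ℝ) ≤ (2 / log ‖β‖ + 1) * (Ac α β x).ncard := by positivity
  have e5 : 0 ≤ log 2 ^ 2 / (log ‖α‖ * log ‖β‖) := by positivity
  rw [one_mul, Real.norm_eq_abs, Real.norm_eq_abs, abs_of_nonneg (a := _ + _) (by linarith),
    abs_le]
  simp only [Pi.sub_apply]
  constructor <;> linarith

end Pool.Agent.Lib.MP_606be1_nt.TH
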