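import Pool.Agent.Lib.MP_606be1_nt.TH.Main

/-! Complex bases: a tower type lower bound forces the asymptotic formula. -/

namespace Pool.Agent.Lib.MP_606be1_nt.TH

open Real Set Filter Asymptotics

/-- the counted pairs for complex bases -/
def Tc (α β : ℂ) (x : ℝ) : Set (ℕ × ℕ) := {p | ‖α ^ p.1 - β ^ p.2‖ ≤ x}

/-- exponents of near coincidences outside the box -/
def Ac (α β : ℂ) (x : ℝ) : Set ℕ := {n | 2 * x ≤ ‖α‖ ^ n ∧ ∃ m, (n, m) ∈ Tc α β x}

lemma fin_pos {ι : Type*} (s : Finset ι) (f : ι → ℝ) (h : ∀ i ∈ s, 0 < f i) :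
    ∃ δ : ℝ, 0 < δ ∧ δ ≤ 1 ∧ ∀ i ∈ s, δ ≤ f i := by
  classical
  induction s using Finset.induction_on with
  | empty => exact ⟨1, one_pos, le_rfl, by simp⟩
  | insert a s _ ih =>
    obtain ⟨δ, h1, h2, h3⟩ := ih fun i hi => h i (by simp [hi])
    refine ⟨min δ (f a), lt_min h1 (h a (by simp)), (min_le_left _ _).trans h2, fun i hi => ?_⟩
    rcases Finset.mem_insert.1 hi with rfl | hi
    · exact min_le_right _ _
    · exact (min_le_left _ _).trans (h3 i hi)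

lemma chain' {a : ℝ} (ha : 0 < a) (k : ℕ) : ∀ S : Finset ℕ,
    (∀ j ∈ S, 1 ≤ j ∧ 16 / a ^ 3 ≤ j) → (∀ j ∈ S, ∀ i ∈ S, j < i → exp (a * j / 2) ≤ i) →
    2 * k < S.card → ∃ j ∈ S, tw k ≤ j := by
  induction k with
  | zero =>
    intro S hS _ hc
    obtain ⟨j, hj⟩ := Finset.card_pos.1 hc
    exact ⟨j, hj, (hS j hj).1⟩
  | succ k ih =>
    intro S hS step hc
    have hne : S.Nonempty := Finset.card_pos.1 (by omega)
    set j2 := S.max' hne with hj2
    have m2 : j2 ∈ S := S.max'_mem hne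
    have c1 : (S.erase j2).card = S.card - 1 := Finset.card_erase_of_mem m2
    have hne1 : (S.erase j2).Nonempty := Finset.card_pos.1 (by omega)
    set j1 := (S.erase j2).max' hne1 with hj1
    have m1 : j1 ∈ S.erase j2 := Finset.max'_mem _ hne1
    have c2 : ((S.erase j2).erase j1).card = (S.erase j2).card - 1 := Finset.card_erase_of_mem m1
    have sub : ∀ j ∈ (S.erase j2).erase j1, j ∈ S := fun j hj =>
      Finset.mem_of_mem_erase (Finset.mem_of_mem_erase hj)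
    obtain ⟨j, hj, hjk⟩ := ih ((S.erase j2).erase j1) (fun j hj => hS j (sub j hj))
      (fun j hj i hi => step j (sub j hj) i (sub i hi)) (by omega)
    have l1 : j < j1 := lt_of_le_of_ne (Finset.le_max' _ _ (Finset.mem_of_mem_erase hj))
      (Finset.ne_of_mem_erase hj)
    have l2 : j1 < j2 := lt_of_le_of_ne (Finset.le_max' _ _ (Finset.mem_of_mem_erase m1))
      (Finset.ne_of_mem_erase m1)
    have s1 := step j (sub j hj) j1 (Finset.mem_of_mem_erase m1) l1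
    have s2 := step j1 (Finset.mem_of_mem_erase m1) j2 m2 l2
    refine ⟨j2, m2, ?_⟩
    set y : ℝ := (j : ℝ) with hy
    have y0 : 16 / a ^ 3 ≤ y := (hS j (sub j hj)).2
    have y1 : 0 < y := lt_of_lt_of_le (by positivity) y0
    rw [div_le_iff₀ (by positivity)] at y0
    have e1 := quadratic_le_exp_of_nonneg (x := a * y / 2) (by positivity)
    have e2 : y ≤ a * j1 / 2 := by
      have e3 : (a * y / 2) ^ 2 / 2 ≤ j1 := by
        have : 0 ≤ a * y / 2 := by positivity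
        linarith
      have e4 : a * ((a * y / 2) ^ 2 / 2) / 2 ≤ a * j1 / 2 := by gcongr
      have e5 : a * ((a * y / 2) ^ 2 / 2) / 2 = y * (y * a ^ 3) / 16 := by ring
      have e6 : y * 16 ≤ y * (y * a ^ 3) := by gcongr
      linarith
    have e3 : (2 : ℝ) ^ j ≤ exp y := by
      rw [hy, ← exp_one_pow]
      gcongr
      linarith [add_one_le_exp (1 : ℝ)]
    have e4 : ((2 ^ j : ℕ) : ℝ) ≤ j2 := by
      push_cast
      exact e3.trans ((exp_le_exp.2 e2).trans s2)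
    have e5 : 2 ^ j ≤ j2 := by exact_mod_cast e4
    exact (Nat.pow_le_pow_right (by norm_num) hjk).trans e5

section
variable {α β : ℂ} (hα : 1 < ‖α‖) (hβ : 1 < ‖β‖)
include hα hβ

lemma ex_lam {x : ℝ} {n m : ℕ} (h : (n, m) ∈ Tc α β x) (hn : 2 * x ≤ ‖α‖ ^ n) :
    ∃ l : ℂ, Complex.exp l * α ^ n = β ^ m ∧ ‖l‖ * ‖α‖ ^ n ≤ 2 * x := by
  have h' : ‖α ^ n - β ^ m‖ ≤ x := h
  have a0 : α ^ n ≠ 0 := pow_ne_zero _ (norm_pos_iff.1 (by linarith))
  have b0 : β ^ m ≠ 0 := pow_ne_zero _ (norm_pos_iff.1 (by linarith))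
  have p0 : 0 < ‖α‖ ^ n := by positivity
  have e1 : ‖β ^ m / α ^ n - 1‖ * ‖α‖ ^ n ≤ x := by
    rw [← norm_pow, ← norm_mul, sub_mul, div_mul_cancel₀ _ a0, one_mul, norm_sub_rev]
    exact h'
  have e2 : ‖β ^ m / α ^ n - 1‖ ≤ 1 / 2 := le_of_mul_le_mul_right (by linarith) p0
  have e3 := Complex.norm_log_one_add_half_le_self e2
  rw [add_sub_cancel] at e3
  refine ⟨Complex.log (β ^ m / α ^ n), by
    rw [Complex.exp_log (div_ne_zero b0 a0), div_mul_cancel₀ _ a0], ?_⟩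
  have := mul_le_mul_of_nonneg_right e3 p0.le
  linarith [norm_nonneg (α ^ n - β ^ m)]

lemma gap {δ x : ℝ} (hδ : ∀ n m : ℕ, 1 ≤ n → δ ≤ ‖α ^ n - β ^ m‖) {n m n' m' : ℕ}
    (h : (n, m) ∈ Tc α β x) (h' : (n', m') ∈ Tc α β x) (hn : n < n') (h1 : 2 * x ≤ ‖α‖ ^ n)
    (h2 : 4 * x < δ * ‖α‖ ^ n) : min (log ‖β‖) 1 * ‖α‖ ^ n ≤ 4 * x * n' := by
  have hb := log_pos hβ
  have a0 : α ≠ 0 := norm_pos_iff.1 (by linarith)
  have b0 : β ≠ 0 := norm_pos_iff.1 (by linarith)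
  have p0 : 0 < ‖α‖ ^ n := by positivity
  have p1 : ‖α‖ ^ n ≤ ‖α‖ ^ n' := pow_le_pow_right₀ hα.le hn.le
  obtain ⟨l, l1, l2⟩ := ex_lam hα hβ h h1
  obtain ⟨l', l1', l2'⟩ := ex_lam hα hβ h' (h1.trans p1)
  have l3 : ‖l'‖ * ‖α‖ ^ n ≤ 2 * x := le_trans (by gcongr) l2'
  have nn : (n : ℝ) ≤ n' := by exact_mod_cast hn.le
  by_contra! hc
  set μ : ℂ := n * l' - n' * l with hμ
  have e1 : ‖μ‖ < min (log ‖β‖) 1 := by
    have e : ‖μ‖ ≤ n' * ‖l'‖ + n' * ‖l‖ := by
      refine (norm_sub_le _ _).trans ?_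
      rw [norm_mul, norm_mul, Complex.norm_natCast, Complex.norm_natCast]
      gcongr
    have e' : (n' : ℝ) * (‖l'‖ * ‖α‖ ^ n) + n' * (‖l‖ * ‖α‖ ^ n) ≤ n' * (2 * x) + n' * (2 * x) := by
      gcongr
    have e'' := mul_le_mul_of_nonneg_right e p0.le
    exact lt_of_mul_lt_mul_right (by linarith) p0.le
  have e2 : Complex.exp μ * β ^ (m * n') = β ^ (m' * n) := by
    rw [hμ, Complex.exp_sub, Complex.exp_nat_mul, Complex.exp_nat_mul, pow_mul, pow_mul, ← l1,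
      ← l1', mul_pow, mul_pow, ← pow_mul α, ← pow_mul α, mul_comm n n']
    field_simp
  have e3 : m * n' = m' * n := by
    have e := congrArg (fun z => log ‖z‖) e2
    simp only [norm_mul, norm_pow, Complex.norm_exp] at e
    rw [log_mul (exp_pos _).ne' (by positivity), log_exp, log_pow, log_pow] at e
    have e4 := abs_lt.1 (((Complex.abs_re_le_norm μ).trans_lt e1).trans_le (min_le_left _ _))
    have e5 : ((m * n' : ℕ) : ℝ) < (m' * n : ℕ) + 1 :=
      lt_of_mul_lt_mul_right (a := log ‖β‖) (by linarith [e4.1]) hb.le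
    have e6 : ((m' * n : ℕ) : ℝ) < (m * n' : ℕ) + 1 :=
      lt_of_mul_lt_mul_right (a := log ‖β‖) (by linarith [e4.2]) hb.le
    have e7 : m * n' < m' * n + 1 := by exact_mod_cast e5
    have e8 : m' * n < m * n' + 1 := by exact_mod_cast e6
    omega
  have e4 : μ = 0 := by
    rw [e3, mul_left_eq_self₀, or_iff_left (pow_ne_zero _ b0), Complex.exp_eq_one_iff] at e2
    obtain ⟨k, hk⟩ := e2
    have e5 := e1.trans_le (min_le_right _ _)
    rw [hk] at e5 ⊢
    by_contra hk0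
    have e6 : (1 : ℝ) ≤ |(k : ℝ)| := by
      exact_mod_cast Int.one_le_abs (by rintro rfl; simp at hk0)
    simp only [norm_mul, Complex.norm_intCast, Complex.norm_I, Complex.norm_real,
      Complex.norm_ofNat, Real.norm_eq_abs, abs_of_pos pi_pos] at e5
    nlinarith [pi_gt_three]
  obtain ⟨d, rfl⟩ := Nat.exists_eq_add_of_le hn.le
  obtain ⟨e, rfl⟩ : ∃ e, m' = m + e := Nat.exists_eq_add_of_le (by
    by_contra! hm
    nlinarith [Nat.zero_le m'])
  have e5 : ‖l' - l‖ ≤ ‖l'‖ := by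
    have e6 : ((n + d : ℕ) : ℂ) * (l' - l) = d * l' := by
      rw [hμ] at e4
      push_cast at e4 ⊢
      linear_combination e4
    have e7 := congrArg norm e6
    rw [norm_mul, norm_mul, Complex.norm_natCast, Complex.norm_natCast] at e7
    have e8 : (0 : ℝ) < (n + d : ℕ) := by exact_mod_cast (by omega : 0 < n + d)
    have e9 : (d : ℝ) * ‖l'‖ ≤ (n + d : ℕ) * ‖l'‖ := by gcongr; omega
    exact le_of_mul_le_mul_left (by linarith) e8
  have e6 : Complex.exp (l' - l) * α ^ d = β ^ e := by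
    refine mul_left_cancel₀ (pow_ne_zero m b0) ?_
    rw [← pow_add β, ← l1', ← l1, Complex.exp_sub, pow_add]
    field_simp
  have e7 : ‖l'‖ ≤ 1 := le_of_mul_le_mul_right (by linarith) p0
  have e8 : ‖α ^ d - β ^ e‖ ≤ 2 * ‖l'‖ * ‖α‖ ^ d := by
    rw [← e6, norm_sub_rev, ← sub_one_mul, norm_mul, norm_pow]
    have := Complex.norm_exp_sub_one_le (e5.trans e7)
    gcongr
    linarith
  have e9 := mul_le_mul_of_nonneg_right ((hδ d e (by omega)).trans e8) p0.le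
  rw [pow_add] at l2'
  linarith

lemma exists_delta {K : ℕ} (hK : ∀ n ≥ K, ∀ m : ℕ, 1 ≤ ‖α ^ n - β ^ m‖) :
    ∃ δ : ℝ, 0 < δ ∧ δ ≤ 1 ∧ ∀ n m : ℕ, 1 ≤ n → δ ≤ ‖α ^ n - β ^ m‖ := by
  obtain ⟨M, hM⟩ := pow_unbounded_of_one_lt (‖α‖ ^ K + 1) hβ
  obtain ⟨δ, h1, h2, h3⟩ := fin_pos (Finset.Ico 1 K ×ˢ Finset.range M)
    (fun p => ‖α ^ p.1 - β ^ p.2‖) fun p hp => by
      rw [norm_pos_iff, sub_ne_zero]
      intro e
      have h4 := (Finset.mem_Ico.1 (Finset.mem_product.1 hp).1).1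
      have h5 := hK (p.1 * K) (Nat.le_mul_of_pos_left _ h4) (p.2 * K)
      rw [pow_mul, pow_mul, e, sub_self, norm_zero] at h5
      linarith
  refine ⟨δ, h1, h2, fun n m hn => ?_⟩
  rcases le_or_gt K n with h | h
  · exact h2.trans (hK n h m)
  rcases le_or_gt M m with h' | h'
  · have e1 : ‖α‖ ^ n ≤ ‖α‖ ^ K := pow_le_pow_right₀ hα.le h.le
    have e2 : ‖β‖ ^ M ≤ ‖β‖ ^ m := pow_le_pow_right₀ hβ.le h'
    have e3 := norm_sub_norm_le (β ^ m) (α ^ n)
    rw [norm_sub_rev, norm_pow, norm_pow] at e3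
    linarith
  · exact h3 (n, m) (by simp [hn, h, h'])

omit hα hβ in
lemma Tc_sub {x : ℝ} : Tc α β x ⊆ T ‖α‖ ‖β‖ x := fun p hp => by
  have := abs_norm_sub_norm_le (α ^ p.1) (β ^ p.2)
  rw [norm_pow, norm_pow] at this
  exact this.trans hp

lemma upperC {x : ℝ} (hx : 1 ≤ x) (hA : (Ac α β x).Finite) :
    (Tc α β x).Finite ∧ ((Tc α β x).ncard : ℝ) ≤
      (log (2 * x) / log ‖α‖ + 1) * (log (3 * x) / log ‖β‖ + 1)
        + (Ac α β x).ncard * (2 / log ‖β‖ + 1) := by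
  classical
  have ha := log_pos hα
  have hb := log_pos hβ
  set N := ⌊log (2 * x) / log ‖α‖⌋₊ + 1 with hN
  set M := ⌊log (3 * x) / log ‖β‖⌋₊ + 1 with hM
  set K := ⌊2 / log ‖β‖⌋₊ + 1 with hK
  set ξ := log ‖α‖ / log ‖β‖ with hξ
  set g : ℕ × ℕ → ℕ × ℕ := fun p => (p.1, ⌈p.1 * ξ - 1 / log ‖β‖⌉₊ + p.2) with hg
  have hsub : Tc α β x ⊆ ((Finset.range N ×ˢ Finset.range M ∪
      (hA.toFinset ×ˢ Finset.range K).image g : Finset (ℕ × ℕ)) : Set (ℕ × ℕ)) := by
    rintro ⟨n, m⟩ h0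
    have h := Tc_sub h0
    simp only [Finset.coe_union, Finset.coe_product, Finset.coe_range, Finset.coe_image, mem_union,
      mem_prod, mem_Iio, mem_image, Finite.coe_toFinset]
    have h' : |‖α‖ ^ n - ‖β‖ ^ m| ≤ x := h
    rcases le_total (‖α‖ ^ n) (2 * x) with hn | hn
    · left
      exact ⟨(pow_le_iff hα (by linarith) _).1 hn,
        (pow_le_iff hβ (by linarith) _).1 (by linarith [(abs_le.1 h').1])⟩
    · right
      have h1 := approx_of_mem hα hβ h hn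
      have h2 : |(n : ℝ) * ξ - m| ≤ 1 / log ‖β‖ := by
        rw [le_div_iff₀ hb]
        have e0 : 0 ≤ log ‖β‖ * |(n : ℝ) * ξ - m| := by positivity
        have e1 : x * (log ‖β‖ * |(n : ℝ) * ξ - m|) ≤
            ‖α‖ ^ n / 2 * (log ‖β‖ * |(n : ℝ) * ξ - m|) := by
          gcongr; linarith
        nlinarith
      obtain ⟨h3, h4⟩ := abs_le.1 h2
      have h5 : ⌈n * ξ - 1 / log ‖β‖⌉₊ ≤ m := Nat.ceil_le.2 (by linarith)
      refine ⟨(n, m - ⌈n * ξ - 1 / log ‖β‖⌉₊), ⟨⟨hn, m, h0⟩, ?_⟩, ?_⟩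
      · refine Nat.lt_succ_of_le (Nat.le_floor ?_)
        have := Nat.le_ceil (n * ξ - 1 / log ‖β‖)
        rw [Nat.cast_sub h5]
        have e : 2 / log ‖β‖ = 2 * (1 / log ‖β‖) := by ring
        linarith
      · simp only [hg, Prod.mk.injEq, true_and]
        omega
  refine ⟨(Finset.finite_toSet _).subset hsub, ?_⟩
  have h1 := ncard_le_ncard hsub (Finset.finite_toSet _)
  rw [ncard_coe_finset] at h1
  have h2 : (Tc α β x).ncard ≤ N * M + hA.toFinset.card * K := by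
    refine h1.trans ((Finset.card_union_le _ _).trans (add_le_add ?_ ?_))
    · simp
    · exact Finset.card_image_le.trans (by simp)
  rw [← ncard_eq_toFinset_card _ hA] at h2
  have l2 : 0 ≤ log (2 * x) := log_nonneg (by linarith)
  have l3 : 0 ≤ log (3 * x) := log_nonneg (by linarith)
  have h3 : (N : ℝ) ≤ log (2 * x) / log ‖α‖ + 1 := by
    rw [hN]; push_cast; linarith [Nat.floor_le (div_nonneg l2 ha.le)]
  have h4 : (M : ℝ) ≤ log (3 * x) / log ‖β‖ + 1 := by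
    rw [hM]; push_cast; linarith [Nat.floor_le (div_nonneg l3 hb.le)]
  have h6 : (K : ℝ) ≤ 2 / log ‖β‖ + 1 := by
    rw [hK]; push_cast; linarith [Nat.floor_le (show 0 ≤ 2 / log ‖β‖ by positivity)]
  have h2' : ((Tc α β x).ncard : ℝ) ≤ N * M + (Ac α β x).ncard * K := by exact_mod_cast h2
  refine h2'.trans ?_
  gcongr

lemma lowerC {y : ℝ} (hy : 1 ≤ y) (hT : (Tc α β (2 * y)).Finite) (R : Finset (ℕ × ℕ))
    (hR : ∀ p ∈ R, p ∈ Tc α β (2 * y) ∧ ⌊log y / log ‖α‖⌋₊ < p.1) :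
    log y ^ 2 / (log ‖α‖ * log ‖β‖) + R.card ≤ (Tc α β (2 * y)).ncard := by
  classical
  have ha := log_pos hα
  have hb := log_pos hβ
  have hL := log_nonneg hy
  set N := ⌊log y / log ‖α‖⌋₊ + 1 with hN
  set M := ⌊log y / log ‖β‖⌋₊ + 1 with hM
  have hsub : ((Finset.range N ×ˢ Finset.range M ∪ R : Finset (ℕ × ℕ)) : Set (ℕ × ℕ))
      ⊆ Tc α β (2 * y) := by
    intro p hp
    simp only [Finset.coe_union, Finset.coe_product, Finset.coe_range, mem_union,
      mem_prod, mem_Iio, Finset.mem_coe] at hp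
    rcases hp with ⟨h1, h2⟩ | hp
    · have h1 := (pow_le_iff hα hy _).2 h1
      have h2 := (pow_le_iff hβ hy _).2 h2
      refine (norm_sub_le _ _).trans ?_
      rw [norm_pow, norm_pow]
      linarith
    · exact (hR p hp).1
  have hdisj : Disjoint (Finset.range N ×ˢ Finset.range M) R := by
    rw [Finset.disjoint_left]
    intro p hp hp'
    have h2 : p.1 < N := by simpa using (Finset.mem_product.1 hp).1
    have := (hR p hp').2
    omega
  have h1 := ncard_le_ncard hsub hT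
  rw [ncard_coe_finset, Finset.card_union_of_disjoint hdisj, Finset.card_product,
    Finset.card_range, Finset.card_range] at h1
  have h3 : log y / log ‖α‖ ≤ N := by
    rw [hN]; push_cast; exact (Nat.lt_floor_add_one _).le
  have h4 : log y / log ‖β‖ ≤ M := by
    rw [hM]; push_cast; exact (Nat.lt_floor_add_one _).le
  have h6 : log y ^ 2 / (log ‖α‖ * log ‖β‖) ≤ N * M := by
    calc _ = log y / log ‖α‖ * (log y / log ‖β‖) := by field_simp
      _ ≤ _ := by gcongr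
  have h1' : (N : ℝ) * M + R.card ≤ (Tc α β (2 * y)).ncard := by exact_mod_cast h1
  linarith

end

end Pool.Agent.Lib.MP_606be1_nt.TH
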