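import Pool.Agent.Results.MP_606be1_nt.Threshold

/-! Real intervals, open sets and the two earlier hand-ins follow from the threshold theorem. -/

namespace Pool.Agent.Lib.MP_606be1_nt.TH

open Real Set Filter Asymptotics Pool.Agent.Results.MP_606be1_nt

/-- real intervals: the earlier real form of the threshold theorem -/
theorem realCase (β u v : ℝ) (hβ : 1 < β) (hu : 1 ≤ u) (huv : u < v) (ψ : ℕ → ℝ)
    (hψ : Monotone ψ) (ho : Tendsto (fun n : ℕ => ψ n / (n : ℝ)) atTop (nhds 0)) :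
    (∀ α : ℝ, u < α → α < v →
      (∀ᶠ n : ℕ in atTop, ∀ m : ℕ, Real.exp (ψ n) ≤ |α ^ n - β ^ m|) →
      Asymptotics.IsEquivalent atTop
        (fun x : ℝ => (({p : ℕ × ℕ | |α ^ p.1 - β ^ p.2| ≤ x}.ncard : ℕ) : ℝ))
        (fun x : ℝ => Real.log x ^ 2 / (Real.log α * Real.log β))) ↔
    Tendsto (fun k : ℕ => ψ (tw k) / Real.sqrt (k : ℝ)) atTop atTop := by
  have hb := log_pos hβ
  have e1 : ∀ a : ℝ, 0 < a → ‖(a : ℂ)‖ = a := fun a ha => by
    rw [Complex.norm_real, Real.norm_eq_abs, abs_of_pos ha]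
  have e2 : ∀ (a : ℝ) (n m : ℕ), ‖(a : ℂ) ^ n - (β : ℂ) ^ m‖ = |a ^ n - β ^ m| := fun a n m => by
    rw [← Complex.ofReal_pow, ← Complex.ofReal_pow, ← Complex.ofReal_sub, Complex.norm_real,
      Real.norm_eq_abs]
  rw [← Threshold.result β (log β : ℝ) 1 (by rwa [e1 β (by linarith)])
    (by rw [← Complex.ofReal_exp, exp_log (by linarith)]) IsOfFinOrder.one (log u / log β)
    (log v / log β) (by gcongr) ((fun a : ℝ => (a : ℂ)) '' Ioo u v) (by
      rintro _ ⟨a, ha, rfl⟩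
      rw [e1 a (by linarith [ha.1])]
      exact hu.trans_lt ha.1) (fun ξ h1 h2 => ⟨exp (ξ * log β),
      ⟨(log_lt_iff_lt_exp (by linarith)).1 ((div_lt_iff₀ hb).1 h1),
        (lt_log_iff_exp_lt (by linarith)).1 ((lt_div_iff₀ hb).1 h2)⟩, by
      rw [one_mul, ← Complex.ofReal_mul, ← Complex.ofReal_exp]⟩) ψ hψ ho, forall_mem_image]
  refine forall_congr' fun a => ⟨fun H ha => ?_, fun H h1 h2 => ?_⟩
  · simpa only [e2, e1 a (by linarith [ha.1]), e1 β (by linarith)] using H ha.1 ha.2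
  · simpa only [e2, e1 a (by linarith), e1 β (by linarith)] using H ⟨h1, h2⟩

/-- every nonempty open set of bases contains an arc -/
theorem openCase (β : ℂ) (hβ : 1 < ‖β‖) (S : Set ℂ) (hS : ∀ α ∈ S, 1 < ‖α‖) (h1 : IsOpen S)
    (h2 : S.Nonempty) (ψ : ℕ → ℝ)
    (hψ : Monotone ψ) (ho : Tendsto (fun n : ℕ => ψ n / (n : ℝ)) atTop (nhds 0)) :
    (∀ α ∈ S,
      (∀ᶠ n : ℕ in atTop, ∀ m : ℕ, Real.exp (ψ n) ≤ ‖α ^ n - β ^ m‖) →
      Asymptotics.IsEquivalent atTop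
        (fun x : ℝ => (({p : ℕ × ℕ | ‖α ^ p.1 - β ^ p.2‖ ≤ x}.ncard : ℕ) : ℝ))
        (fun x : ℝ => Real.log x ^ 2 / (Real.log ‖α‖ * Real.log ‖β‖))) ↔
    Tendsto (fun k : ℕ => ψ (tw k) / Real.sqrt (k : ℝ)) atTop atTop := by
  obtain ⟨α, hα⟩ := h2
  have hB : Complex.exp (Complex.log β) = β := Complex.exp_log (norm_pos_iff.1 (by linarith))
  set B := Complex.log β with hB'
  have b0 : 0 < B.re := by rw [hB', Complex.log_re]; exact log_pos hβ
  have a0 : 0 < ‖α‖ := by linarith [hS α hα]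
  set ξ : ℝ := log ‖α‖ / B.re with hξ
  have n1 : ‖α / Complex.exp (ξ * B)‖ = 1 := by
    rw [norm_div, Complex.norm_exp, Complex.re_ofReal_mul, hξ, div_mul_cancel₀ _ b0.ne',
      exp_log a0, div_self a0.ne']
  obtain ⟨θ, hθ⟩ := (Complex.norm_eq_one_iff _).1 n1
  obtain ⟨r, hr⟩ := (Rat.denseRange_cast (𝕜 := ℝ)).exists_mem_open
    (s := (fun r : ℝ => Complex.exp (r * (2 * π * Complex.I)) * Complex.exp (ξ * B)) ⁻¹' S)
    (h1.preimage (by fun_prop)) ⟨θ / (2 * π), by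
      have : ((θ / (2 * π) : ℝ) : ℂ) * (2 * π * Complex.I) = θ * Complex.I := by
        have : (π : ℂ) ≠ 0 := by exact_mod_cast pi_ne_zero
        push_cast
        field_simp
      rw [mem_preimage, this, hθ, div_mul_cancel₀ _ (Complex.exp_ne_zero _)]
      exact hα⟩
  obtain ⟨s, t, h3, h4⟩ := mem_nhds_iff_exists_Ioo_subset.1 ((h1.preimage (f := fun ξ : ℝ =>
    Complex.exp ((r : ℝ) * (2 * π * Complex.I)) * Complex.exp (ξ * B)) (by fun_prop)).mem_nhds hr)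
  refine Threshold.result β B _ hβ hB (isOfFinOrder_iff_pow_eq_one.2 ⟨r.den, r.den_pos, ?_⟩) s t
    (h3.1.trans h3.2) S hS (fun y y1 y2 => h4 ⟨y1, y2⟩) ψ hψ ho
  rw [← Complex.exp_nat_mul, ← Complex.exp_int_mul_two_pi_mul_I r.num, ← mul_assoc]
  congr 2
  exact_mod_cast Rat.den_mul_eq_num r

lemma sqrt_little {ψ : ℕ → ℝ} {c : ℝ} (h0 : ∀ n, 0 ≤ ψ n) (h1 : ∀ n : ℕ, ψ n ≤ c * √n) :
    Tendsto (fun n : ℕ => ψ n / (n : ℝ)) atTop (nhds 0) := by
  have h : Tendsto (fun n : ℕ => c / √(n : ℝ)) atTop (nhds 0) :=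
    tendsto_const_nhds.div_atTop (tendsto_sqrt_atTop.comp tendsto_natCast_atTop_atTop)
  refine squeeze_zero (fun n => div_nonneg (h0 n) (Nat.cast_nonneg n)) (fun n => ?_) h
  calc ψ n / n ≤ c * √n / n := by gcongr; exact h1 n
    _ = c / √n := by rw [mul_div_assoc, sqrt_div_self', mul_one_div]

/-- the statement of the former hand-in TowerBound -/
theorem towerBound (α β : ℝ) (hα : 1 < α) (hβ : 1 < β)
    (H : ∀ C : ℝ, ∃ K : ℕ, ∀ k : ℕ, K ≤ k → ∀ n m : ℕ, tw k ≤ n →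
      Real.exp (C * Real.sqrt (k : ℝ)) ≤ |α ^ n - β ^ m|) :
    Asymptotics.IsEquivalent Filter.atTop
      (fun x : ℝ => (({p : ℕ × ℕ | |α ^ p.1 - β ^ p.2| ≤ x}.ncard : ℕ) : ℝ))
      (fun x : ℝ => Real.log x ^ 2 / (Real.log α * Real.log β)) := by
  set S : ℕ → Set ℝ := fun n =>
    {t | t ≤ √n ∧ (t ≤ 0 ∨ ∀ i ≥ n, ∀ m : ℕ, exp t ≤ |α ^ i - β ^ m|)} with hS
  have z : ∀ n, (0 : ℝ) ∈ S n := fun n => ⟨sqrt_nonneg _, Or.inl le_rfl⟩
  have b : ∀ n, BddAbove (S n) := fun n => ⟨√n, fun t ht => ht.1⟩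
  refine (realCase β 1 (α + 1) hβ le_rfl (by linarith) (fun n => sSup (S n))
    (fun i j h => csSup_le_csSup (b j) ⟨0, z i⟩ fun t ht =>
      ⟨ht.1.trans (by gcongr), ht.2.imp_right fun h2 n hn => h2 n (h.trans hn)⟩)
    (sqrt_little (c := 1) (fun n => le_csSup (b n) (z n))
      fun n => csSup_le ⟨0, z n⟩ fun t ht => by rw [one_mul]; exact ht.1)).2 ?_ α hα
    (by linarith) ?_
  · refine tendsto_atTop.2 fun C => ?_
    obtain ⟨K, hK⟩ := H C
    have h1 := isLittleO_iff.1 (isLittleO_pow_const_const_pow_of_one_lt (R := ℝ) 1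
      (by norm_num : (1 : ℝ) < 2)) (c := 1 / (2 * (C ^ 2 + 1))) (by positivity)
    filter_upwards [h1, eventually_ge_atTop K, eventually_ge_atTop 1] with k h2 h3 h4
    have k0 : 0 < √(k : ℝ) := sqrt_pos.2 (by exact_mod_cast h4)
    rw [le_div_iff₀ k0]
    refine le_csSup (b _) ⟨?_, Or.inr fun i hi m => hK k h3 i m hi⟩
    obtain ⟨k, rfl⟩ : ∃ i, k = i + 1 := ⟨k - 1, by omega⟩
    rw [pow_one, Real.norm_natCast, Real.norm_eq_abs, abs_of_pos (by positivity), one_div,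
      inv_mul_eq_div, le_div_iff₀ (by positivity), pow_succ (2 : ℝ) k] at h2
    have h5 : (2 : ℝ) ^ k ≤ tw (k + 1) := by
      exact_mod_cast Nat.pow_le_pow_right (by norm_num : 0 < 2) (le_tw k)
    refine le_sqrt_of_sq_le ?_
    rw [mul_pow, sq_sqrt (Nat.cast_nonneg _)]
    have : (0 : ℝ) ≤ ((k + 1 : ℕ) : ℝ) := Nat.cast_nonneg _
    nlinarith
  · obtain ⟨K, hK⟩ := H 0
    filter_upwards [eventually_ge_atTop (tw K)] with n hn m
    have h1 := hK K le_rfl n m hn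
    rw [zero_mul] at h1
    rw [← le_log_iff_exp_le ((exp_pos 0).trans_le h1)]
    refine csSup_le ⟨0, z n⟩ fun t ht => ?_
    rw [le_log_iff_exp_le ((exp_pos 0).trans_le h1)]
    exact ht.2.elim (fun h => (exp_le_exp.2 h).trans h1) fun h => h n le_rfl m

/-- the statement of the former hand-in TowerSharp -/
theorem towerSharp (β : ℝ) (hβ : 1 < β) (c u v : ℝ) (hu : 1 ≤ u) (huv : u < v) :
    ∃ α : ℝ, u < α ∧ α < v ∧ (∀ i j : ℤ, α ^ i = β ^ j → i = 0 ∧ j = 0) ∧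
      (∀ x : ℝ, {p : ℕ × ℕ | |α ^ p.1 - β ^ p.2| ≤ x}.Finite) ∧
      (∃ K : ℕ, ∀ k : ℕ, K ≤ k → ∀ n m : ℕ, tw k ≤ n →
        Real.exp (c * Real.sqrt (k : ℝ)) ≤ |α ^ n - β ^ m|) ∧
      ¬ Asymptotics.IsEquivalent Filter.atTop
        (fun x : ℝ => (({p : ℕ × ℕ | |α ^ p.1 - β ^ p.2| ≤ x}.ncard : ℕ) : ℝ))
        (fun x : ℝ => Real.log x ^ 2 / (Real.log α * Real.log β)) := by
  set ls : ℕ → ℕ := fun n => Nat.findGreatest (fun k => tw k ≤ n) n with hls
  have l1 : ∀ k n, tw k ≤ n → k ≤ ls n := fun k n h =>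
    Nat.le_findGreatest ((le_tw k).trans h) h
  have l2 : Monotone ls := fun i j h => Nat.findGreatest_mono (fun k hk => hk.trans h) h
  have l3 : ∀ k, ls (tw k) ≤ k := fun k => by
    have := Nat.findGreatest_spec (P := fun i => tw i ≤ tw k) (le_tw k) le_rfl
    exact tw_strictMono.le_iff_le.1 this
  have c0 : 0 < |c| + 1 := by positivity
  have H := (realCase β u v hβ hu huv (fun n => (|c| + 1) * √(ls n))
    (fun i j h => by have := l2 h; dsimp only; gcongr)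
    (sqrt_little (c := |c| + 1) (fun n => by positivity) fun n => by
      have : ls n ≤ n := Nat.findGreatest_le n
      gcongr)).not.2 fun h => by
    obtain ⟨k, h1, h2⟩ := ((h.eventually_gt_atTop (|c| + 1)).and (eventually_ge_atTop 1)).exists
    have k0 : 0 < √(k : ℝ) := sqrt_pos.2 (by exact_mod_cast h2)
    have h3 : (|c| + 1) * √(ls (tw k) : ℝ) ≤ (|c| + 1) * √k := by have := l3 k; gcongr
    linarith [(lt_div_iff₀ k0).1 h1]
  push Not at H
  obtain ⟨α, h1, h2, h3, h4⟩ := H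
  obtain ⟨K, hK⟩ := eventually_atTop.1 h3
  have hα : 1 < α := hu.trans_lt h1
  have key : ∀ k : ℕ, K ≤ k → ∀ n m : ℕ, tw k ≤ n → exp ((|c| + 1) * √k) ≤ |α ^ n - β ^ m| :=
    fun k hk n m hn => le_trans (by have := l1 k n hn; gcongr)
      (hK n (hk.trans ((le_tw k).trans hn)) m)
  have fin : ∀ x : ℝ, {p : ℕ × ℕ | |α ^ p.1 - β ^ p.2| ≤ x}.Finite := by
    intro x
    obtain ⟨k, hk⟩ := exists_nat_gt (x ^ 2)
    obtain ⟨M, hM⟩ := pow_unbounded_of_one_lt (x + α ^ tw (k + K)) hβ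
    refine ((finite_lt_nat (tw (k + K))).prod (finite_lt_nat M)).subset ?_
    rintro ⟨n, m⟩ (hp : |α ^ n - β ^ m| ≤ x)
    have hn : n < tw (k + K) := by
      by_contra! hn
      have e1 := key (k + K) (by omega) n m hn
      have e2 : x ≤ √((k + K : ℕ) : ℝ) := le_sqrt_of_sq_le (by push_cast; linarith [K.cast_nonneg (α := ℝ)])
      have e3 := add_one_le_exp ((|c| + 1) * √((k + K : ℕ) : ℝ))
      nlinarith [abs_nonneg c, sqrt_nonneg ((k + K : ℕ) : ℝ)]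
    refine ⟨hn, ?_⟩
    have e1 : α ^ n ≤ α ^ tw (k + K) := pow_le_pow_right₀ hα.le hn.le
    exact (pow_lt_pow_iff_right₀ hβ).1 (by linarith [(abs_le.1 hp).1] : β ^ m < β ^ M)
  refine ⟨α, h1, h2, fun i j hij => ?_, fin, ⟨K, fun k hk n m hn => le_trans ?_ (key k hk n m hn)⟩,
    h4⟩
  · have hb := log_pos hβ
    have hi : Irrational (log α / log β) := by
      by_contra hi
      exact T_infinite_of_rat hα hβ hi le_rfl (fin 0)
    have e1 : i * log α = j * log β := by rw [← log_zpow, ← log_zpow, hij]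
    have e2 : i = 0 := by
      by_contra h
      have h' : (i : ℝ) ≠ 0 := by exact_mod_cast h
      refine hi ⟨(j : ℚ) / i, ?_⟩
      push_cast
      field_simp
      linarith
    subst e2
    refine ⟨rfl, ?_⟩
    have : (j : ℝ) * log β = 0 := by simpa using e1.symm
    exact_mod_cast (mul_eq_zero.1 this).resolve_right hb.ne'
  · gcongr
    linarith [le_abs_self c]

end Pool.Agent.Lib.MP_606be1_nt.TH
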