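import Pool.Agent.Lib.MP_606be1_nt.Sharp

/-! The exact threshold for lower bounds of the differences that force the asymptotic formula. -/

namespace Pool.Agent.Lib.MP_606be1_nt.TH

open Real Set Filter Asymptotics

lemma ex_step (G : ℕ → ℝ) (hG : ∀ n : ℕ, (n : ℝ) ≤ G n) (B : ℝ) (r : ℕ) :
    ∃ a : ℕ, 1 ≤ a ∧ (1 ≤ r → G (2 * r) ≤ B → G ((a + 1) * r) ≤ B ∧ B < G ((a + 2) * r)) := by
  classical
  by_cases h : 1 ≤ r ∧ G (2 * r) ≤ B
  · have hex : ∃ a : ℕ, B < G ((a + 2) * r) := by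
      obtain ⟨a, ha⟩ := exists_nat_gt B
      refine ⟨a, ha.trans_le (le_trans ?_ (hG _))⟩
      exact_mod_cast (by nlinarith [h.1] : a ≤ (a + 2) * r)
    have h1 := Nat.find_spec hex
    have h2 : Nat.find hex ≠ 0 := fun e => by
      rw [e, zero_add] at h1
      linarith [h.2]
    obtain ⟨a, ha⟩ := Nat.exists_eq_succ_of_ne_zero h2
    have h3 := Nat.find_min hex (m := a) (by omega)
    rw [ha] at h1
    exact ⟨a + 1, by omega, fun _ _ => ⟨not_lt.1 h3, h1⟩⟩
  · exact ⟨1, le_rfl, fun h1 h2 => absurd ⟨h1, h2⟩ h⟩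

lemma exists_alpha' {β : ℝ} (hβ : 1 < β) (G : ℕ → ℝ) (hG : ∀ n : ℕ, (n : ℝ) ≤ G n)
    (hm : Monotone G) {u v : ℝ} (hu : 1 ≤ u) (huv : u < v) :
    ∃ α ∈ Ioo u v, Irrational (log α / log β) ∧ ∃ N : ℕ, ∀ j ≥ N,
      G (2 * q α β j) ≤ β ^ pp α β j →
        G (q α β (j + 1)) ≤ β ^ pp α β j ∧ β ^ pp α β j < G (3 * q α β (j + 1)) := by
  have hb := log_pos hβ
  choose A hA1 hA2 using ex_step G hG
  have huv' : log u / log β < log v / log β := by gcongr
  set d := (log v / log β - log u / log β) / 3 with hd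
  have d0 : 0 < d := by rw [hd]; linarith
  obtain ⟨η, hη, h1, h2⟩ := exists_irrational_btwn
    (show log u / log β + d < log v / log β - d by rw [hd]; linarith)
  obtain ⟨N, hN⟩ := exists_nat_gt (2 / d)
  obtain ⟨ξ, hi, h3, h4⟩ := exists_near
    (fun _ p r => (A (β ^ p.toNat) r.toNat : ℤ)) (fun _ _ _ => by exact_mod_cast hA1 _ _) hη N
  have h5 : |ξ - η| < d := by
    rw [div_lt_iff₀ d0] at hN
    by_contra hh
    have : d * (N + 1) ≤ |ξ - η| * (N + 1) := by gcongr; exact not_lt.1 hh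
    linarith
  obtain ⟨h6, h7⟩ := abs_lt.1 h5
  have h8 : log u < ξ * log β := by rw [← div_lt_iff₀ hb]; linarith
  have h9 : ξ * log β < log v := by rw [← lt_div_iff₀ hb]; linarith
  have hξ : log (exp (ξ * log β)) / log β = ξ := by rw [log_exp]; field_simp
  have hmem : exp (ξ * log β) ∈ Ioo u v :=
    ⟨(log_lt_iff_lt_exp (by linarith)).1 h8, (lt_log_iff_exp_lt (by linarith)).1 h9⟩
  set α := exp (ξ * log β) with hαdef
  have hi' : Irrational (log α / log β) := by rwa [hξ]
  refine ⟨α, hmem, hi', N + 1, fun j hj hG2 => ?_⟩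
  obtain ⟨j, rfl⟩ : ∃ i, j = i + 1 := ⟨j - 1, by omega⟩
  have e1 := (back j ξ).2
  rw [h4 j (by omega), ← hξ, ← q_cast hi', ← q_cast hi', ← q_cast hi', Int.toNat_natCast] at e1
  have e2 : q α β (j + 1 + 1) =
      A (β ^ pp α β (j + 1)) (q α β (j + 1)) * q α β (j + 1) + q α β j := by
    exact_mod_cast e1
  have q1 : 1 ≤ q α β (j + 1) := Rat.den_pos _
  have q2 : q α β j ≤ q α β (j + 1) := q_mono hi' (Nat.le_succ j)
  obtain ⟨a1, a2⟩ := hA2 _ _ q1 hG2
  have a0 := hA1 (β ^ pp α β (j + 1)) (q α β (j + 1))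
  generalize A (β ^ pp α β (j + 1)) (q α β (j + 1)) = a at *
  refine ⟨(hm ?_).trans a1, a2.trans_le (hm ?_)⟩
  · rw [e2, add_mul]; omega
  · rw [e2]; nlinarith

lemma three_tw (k : ℕ) : 3 * tw k ≤ tw (k + 2) := by
  have h : ∀ t : ℕ, 2 * t ≤ 2 ^ t := fun t => by
    cases t with
    | zero => simp
    | succ s => rw [pow_succ']; exact Nat.mul_le_mul_left 2 Nat.lt_two_pow_self
  have h1 : 2 * tw k ≤ tw (k + 1) := h _
  have h2 : 2 * tw (k + 1) ≤ tw (k + 2) := h _
  omega

theorem fail {β : ℝ} (hβ : 1 < β) {u v : ℝ} (hu : 1 ≤ u) (huv : u < v) {ψ : ℕ → ℝ}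
    (hψ : Monotone ψ) (h0 : ∀ n, 0 ≤ ψ n) (ho : Tendsto (fun n : ℕ => ψ n / n) atTop (nhds 0))
    {c : ℝ} (c0 : 0 < c) (hc : ∃ᶠ k : ℕ in atTop, ψ (tw k) ≤ c * √k) :
    ∃ α ∈ Ioo u v, (∀ᶠ n : ℕ in atTop, ∀ m : ℕ, exp (ψ n) ≤ |α ^ n - β ^ m|) ∧
      ¬ IsEquivalent atTop (fun x : ℝ => ((T α β x).ncard : ℝ))
        (fun x => log x ^ 2 / (log α * log β)) := by
  have hb := log_pos hβ
  have m0 : 0 < min (log β) 1 := lt_min hb one_pos
  set D := 4 * β / min (log β) 1 with hD
  have D0 : D * min (log β) 1 = 4 * β := by rw [hD]; field_simp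
  have Dp : 0 < D := by positivity
  have D1 : 4 * β ≤ D := by
    rw [← D0]; exact mul_le_of_le_one_right Dp.le (min_le_right _ _)
  have D2 : 4 * β ≤ D * log β := by
    rw [← D0]; gcongr; exact min_le_left _ _
  clear_value D
  set G : ℕ → ℝ := fun n => D * n * exp (ψ n) with hG
  have G1 : ∀ n : ℕ, (n : ℝ) ≤ G n := fun n => by
    have h1 : 1 ≤ exp (ψ n) := one_le_exp (h0 n)
    have h2 : (0 : ℝ) ≤ n := Nat.cast_nonneg n
    calc (n : ℝ) = 1 * n * 1 := by ring
      _ ≤ _ := by simp only [hG]; gcongr; linarith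
  have Gm : Monotone G := fun i j h => by
    have := hψ h
    simp only [hG]
    gcongr
  obtain ⟨α, hmem, hi, N, hN⟩ := exists_alpha' hβ G G1 Gm hu huv
  have hα : 1 < α := hu.trans_lt hmem.1
  have ha := log_pos hα
  obtain ⟨Y, hY⟩ := ev_exp (half_pos ha) (D := 2 * β * D) (by positivity) one_pos
  obtain ⟨Y', hY'⟩ := ev_tower hα (D := β) hβ.le
  obtain ⟨Z, hZ⟩ := eventually_atTop.1 (ho.eventually (gt_mem_nhds (by positivity : 0 < log α / 4)))
  set N1 := N + Y + Y' + Z + 1 with hN1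
  have F4 : ∀ j ≥ N1, G (2 * q α β j) ≤ β ^ pp α β j := by
    intro j hj
    have h1 := le_q hi j
    have h2 : (Y : ℝ) ≤ q α β j := by exact_mod_cast (by omega : Y ≤ q α β j)
    have h3 := hY (q α β j) h2
    have h4 := hZ (2 * q α β j) (by omega)
    have h5 : (0 : ℝ) < q α β j := by exact_mod_cast (by omega : 0 < q α β j)
    push_cast at h4
    rw [div_lt_iff₀ (by positivity)] at h4
    have h6 : exp (ψ (2 * q α β j)) ≤ exp (q α β j * (log α / 2)) := exp_le_exp.2 (by linarith)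
    have h7 : 2 * β * D * q α β j ≤ exp (q α β j * (log α / 2)) :=
      (le_mul_of_one_le_right (by positivity) (one_le_exp (by positivity))).trans h3
    have h8 := (pow_cmp hα hβ hi j).1
    have h9 : α ^ q α β j = exp (q α β j * (log α / 2)) * exp (q α β j * (log α / 2)) := by
      rw [pow_eq_exp hα, ← exp_add]; ring_nf
    have h10 := mul_le_mul h7 h6 (exp_pos _).le (exp_pos _).le
    refine le_of_mul_le_mul_left (a := β) ?_ (by linarith)
    simp only [hG]
    push_cast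
    linarith
  have F4' := fun j (hj : j ≥ N1) => hN j (by omega) (F4 j hj)
  refine ⟨α, hmem, ?_, ?_⟩
  · filter_upwards [eventually_ge_atTop (q α β N1)] with n hn m
    have q1 : 1 ≤ q α β N1 := Rat.den_pos _
    obtain ⟨j, hj1, hj2⟩ := exists_index hi (n := n) (by omega)
    rw [← q_cast hi] at hj1 hj2
    have h1 : q α β j ≤ n := by exact_mod_cast hj1
    have h2 : n < q α β (j + 1) := by exact_mod_cast hj2
    have hj : N1 ≤ j := by
      by_contra hh
      have := q_mono hi (show j + 1 ≤ N1 by omega)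
      omega
    set x := |α ^ n - β ^ m| with hx
    have x0 : 0 ≤ x := abs_nonneg _
    have e1 : α ^ q α β j ≤ α ^ n := pow_le_pow_right₀ hα.le h1
    have e2 := (pow_cmp hα hβ hi j).2
    have e5 := exp_pos (ψ n)
    have h4 : (1 : ℝ) ≤ q α β (j + 1) := by exact_mod_cast (by omega : 1 ≤ q α β (j + 1))
    have e4 : D * q α β (j + 1) * exp (ψ n) ≤ β * α ^ n := by
      have := hψ h2.le
      calc _ ≤ G (q α β (j + 1)) := by simp only [hG]; gcongr
        _ ≤ β * α ^ q α β j := (F4' j hj).1.trans e2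
        _ ≤ _ := by gcongr
    refine le_of_mul_le_mul_left (a := β) ?_ (by linarith)
    rcases le_total (α ^ n) (2 * x) with hn | hn
    · have e7 : 4 * β * 1 * exp (ψ n) ≤ D * q α β (j + 1) * exp (ψ n) := by gcongr
      have e9 : β * α ^ n ≤ β * (2 * x) := by gcongr
      have : 0 ≤ β * x := by positivity
      linarith
    · have e7 := approx_of_mem hα hβ (x := x) (n := n) (m := m) (le_refl x) hn
      have q0 : 1 ≤ q α β j := Rat.den_pos _
      have e8 := (best hi j (n := n) (m := m) (by omega) (by rw [← q_cast hi]; omega)).1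
      have e8' : E (log α / log β) j ≤ |(n : ℝ) * (log α / log β) - m| := by exact_mod_cast e8
      have e9 := le_E hi j
      rw [← q_cast' hi] at e9
      set δ := |(n : ℝ) * (log α / log β) - m| with hδ
      have δ0 : 0 ≤ δ := abs_nonneg _
      have f1 : 1 ≤ 2 * (q α β (j + 1) * δ) := e9.trans (by gcongr)
      have f2 : 4 * β * exp (ψ n) * 1 ≤ D * log β * exp (ψ n) * (2 * (q α β (j + 1) * δ)) := by
        gcongr
      have f4 : D * q α β (j + 1) * exp (ψ n) * (log β * δ) ≤ β * α ^ n * (log β * δ) :=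
        mul_le_mul_of_nonneg_right e4 (by positivity)
      have f5 : β * (α ^ n / 2 * (log β * δ)) ≤ β * x := by gcongr
      linarith
  · have F6 : ∀ i, q α β (N1 + i) ≤ tw (q α β N1 + 2 * i) := by
      intro i
      induction i with
      | zero => exact le_tw _
      | succ i ih =>
        have h1 := (G1 _).trans (F4' (N1 + i) (by omega)).1
        have h2 := (pow_cmp hα hβ hi (N1 + i)).2
        have h3 := hY' (q α β (N1 + i)) (by have := le_q hi (N1 + i); omega)
        have h5 : (q α β (N1 + i + 1) : ℝ) ≤ 2 ^ 2 ^ q α β (N1 + i) := by linarith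
        have h6 : q α β (N1 + i + 1) ≤ 2 ^ 2 ^ q α β (N1 + i) := by exact_mod_cast h5
        refine h6.trans ?_
        change _ ≤ 2 ^ 2 ^ tw (q α β N1 + 2 * i)
        gcongr <;> norm_num
    rw [criterion hα hβ]
    rintro ⟨hJ, h⟩
    have h1 := isLittleO_iff.1 h (c := 1 / (8 * c ^ 2)) (by positivity)
    obtain ⟨x0, hx0⟩ := eventually_atTop.1 h1
    set W := 3 * β * D with hW
    have W1 : 1 ≤ W := by nlinarith
    obtain ⟨i, hi0⟩ := exists_nat_gt (max ((x0 / c) ^ 2) (2 * q α β N1 + 6 + log W ^ 2 / c ^ 2))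
    obtain ⟨k, hki, hk⟩ := frequently_atTop.1 hc i
    have hki' : (i : ℝ) ≤ k := by exact_mod_cast hki
    have i1 : x0 / c ≤ √k := le_sqrt_of_sq_le (((le_max_left _ _).trans hi0.le).trans hki')
    have i2 : 2 * q α β N1 + 6 + log W ^ 2 / c ^ 2 < k :=
      ((le_max_right _ _).trans_lt hi0).trans_le hki'
    rw [div_le_iff₀' c0] at i1
    have h2 : x0 ≤ W * exp (c * √k) := by
      have := add_one_le_exp (c * √k)
      have e : 1 * exp (c * √k) ≤ W * exp (c * √k) := by gcongr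
      linarith
    have h3 := hx0 _ h2
    have h4 : (Finset.Ico N1 (N1 + (k - q α β N1 - 2) / 2) : Set ℕ) ⊆
        J α β (W * exp (c * √k)) := by
      intro j hj
      obtain ⟨j1, j2⟩ : N1 ≤ j ∧ j < N1 + (k - q α β N1 - 2) / 2 := by simpa using hj
      change α ^ q α β j ≤ _
      have e1 := (pow_cmp hα hβ hi j).1
      have e2 := (F4' j j1).2
      have e3 := F6 (j + 1 - N1)
      rw [show N1 + (j + 1 - N1) = j + 1 by omega] at e3
      have e4 := three_tw (q α β N1 + 2 * (j + 1 - N1))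
      have e5 : tw (q α β N1 + 2 * (j + 1 - N1) + 2) ≤ tw k := tw_strictMono.monotone (by omega)
      have e6 : ψ (3 * q α β (j + 1)) ≤ c * √k := (hψ (by omega)).trans hk
      have e7 : G (3 * q α β (j + 1)) ≤ D * (3 * q α β (j + 1)) * exp (c * √k) := by
        simp only [hG]
        push_cast
        gcongr
      have e8 : β * β ^ pp α β j ≤ β * (D * (3 * q α β (j + 1)) * exp (c * √k)) := by
        gcongr; linarith
      rw [hW]
      linarith
    have h5 := ncard_le_ncard h4 (hJ _)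
    rw [ncard_coe_finset, Nat.card_Ico] at h5
    have h6 : (k : ℝ) ≤ 2 * (J α β (W * exp (c * √k))).ncard + q α β N1 + 3 := by
      exact_mod_cast (by omega)
    rw [Real.norm_natCast, Real.norm_eq_abs, abs_of_nonneg (sq_nonneg _),
      log_mul (by positivity) (exp_pos _).ne', log_exp] at h3
    have h7 : (log W + c * √k) ^ 2 ≤ 2 * log W ^ 2 + 2 * c ^ 2 * k := by
      have := sq_sqrt (Nat.cast_nonneg (α := ℝ) k)
      nlinarith [sq_nonneg (log W - c * √k)]
    have h8 : 1 / (8 * c ^ 2) * (log W + c * √k) ^ 2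
        ≤ 1 / (8 * c ^ 2) * (2 * log W ^ 2 + 2 * c ^ 2 * k) := by gcongr
    have h9 : 1 / (8 * c ^ 2) * (2 * log W ^ 2 + 2 * c ^ 2 * k)
        = log W ^ 2 / c ^ 2 / 4 + k / 4 := by field_simp; ring
    linarith

theorem threshold {β : ℝ} (hβ : 1 < β) {u v : ℝ} (hu : 1 ≤ u) (huv : u < v) {ψ : ℕ → ℝ}
    (hψ : Monotone ψ) (ho : Tendsto (fun n : ℕ => ψ n / n) atTop (nhds 0)) :
    (∀ α, u < α → α < v → (∀ᶠ n : ℕ in atTop, ∀ m : ℕ, exp (ψ n) ≤ |α ^ n - β ^ m|) →
      IsEquivalent atTop (fun x : ℝ => ((T α β x).ncard : ℝ))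
        (fun x => log x ^ 2 / (log α * log β))) ↔
    Tendsto (fun k : ℕ => ψ (tw k) / √k) atTop atTop := by
  constructor
  · intro H
    by_contra hc
    rw [tendsto_atTop] at hc
    push Not at hc
    obtain ⟨c, hc⟩ := hc
    have ho' : Tendsto (fun n : ℕ => max (ψ n) 0 / n) atTop (nhds 0) := by
      have := ho.max (tendsto_const_nhds (x := (0 : ℝ)))
      rw [max_self] at this
      refine this.congr fun n => ?_
      rw [← max_div_div_right (Nat.cast_nonneg n), zero_div]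
    obtain ⟨α, hmem, h1, h2⟩ := fail hβ hu huv (ψ := fun n => max (ψ n) 0)
      (hψ.max monotone_const) (fun n => le_max_right _ _) ho' (c := |c| + 1) (by positivity) (by
        refine (hc.and_eventually (eventually_ge_atTop 1)).mono fun k hk => ?_
        have k0 : 0 < √(k : ℝ) := sqrt_pos.2 (by exact_mod_cast hk.2)
        have h3 := (div_lt_iff₀ k0).1 hk.1
        have h4 : c * √k ≤ (|c| + 1) * √k := by gcongr; linarith [le_abs_self c]
        exact max_le (by linarith) (by positivity))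
    exact h2 (H α hmem.1 hmem.2 (h1.mono fun n hn m =>
      (exp_le_exp.2 (le_max_left _ _)).trans (hn m)))
  · intro H α h1 _ h3
    refine tower (hu.trans_lt h1) hβ fun C => ?_
    obtain ⟨K, hK⟩ := eventually_atTop.1 h3
    obtain ⟨K', hK'⟩ := eventually_atTop.1 (H.eventually_ge_atTop C)
    refine ⟨K + K' + 1, fun k hk n m hn => ?_⟩
    have k0 : 0 < √(k : ℝ) := sqrt_pos.2 (by exact_mod_cast (by omega : 0 < k))
    have h4 := (le_div_iff₀ k0).1 (hK' k (by omega))
    exact (exp_le_exp.2 (h4.trans (hψ hn))).trans (hK n (by have := le_tw k; omega) m)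

end Pool.Agent.Lib.MP_606be1_nt.TH
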